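import Pool.Agent.helper97.GD.SpecB

/-!
MP_37e5fa, MP_a70bdc, project GD, row BCP: bounded programs with divisions
-/

set_option autoImplicit false

open Filter

namespace Pool.Agent.GD

/-- small by the bound with exponent `k + 1` -/
theorem BCP_sm (U : Ultrafilter ℕ) (hU : (U : Filter ℕ) ≤ atTop) (m : ℕ → ℕ) (y : ℕ → ℤ)
    (h : ∀ᶠ k in (U : Filter ℕ), |y k| ^ (k + 1) ≤ 2 ^ (2 ^ m k)) : Sm U (fun k => 2 ^ m k) y := by
  intro j
  have hj : ∀ᶠ k in (U : Filter ℕ), j ≤ k := hU (eventually_ge_atTop j)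
  filter_upwards [h, hj] with k hk hjk
  rcases eq_or_ne (y k) 0 with h0 | h0
  · have h1 : (1 : ℤ) ≤ 2 ^ (2 ^ m k) := one_le_pow₀ (by norm_num)
    rw [h0, abs_zero]
    exact (pow_le_one₀ le_rfl zero_le_one).trans h1
  · have h1 : (1 : ℤ) ≤ |y k| := Int.one_le_abs h0
    exact (pow_le_pow_right₀ h1 (by omega)).trans hk

/-- the levels increase -/
theorem BCP_mono (hBLV : BLV_stmt) (U : Ultrafilter ℕ) (N : ℕ → ℕ) (hN : Tendsto N (U : Filter ℕ) atTop) {n n' : ℕ}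
    (h : n ≤ n') {f : ℕ → ℤ} (hf : Lw U N n f) : Lw U N n' f := by
  induction n', h using Nat.le_induction with
  | base => exact hf
  | succ k _ ih => exact (hBLV U N hN k).2.2.1 f ih

/-- one operation -/
theorem BCP_op (hBLV : BLV_stmt) (hBSH : BSH_stmt) (hBLN : BLN_stmt) (hBQT : BQT_stmt) (hBGC : BGC_stmt)
    (U : Ultrafilter ℕ) (hU : (U : Filter ℕ) ≤ atTop) (m : ℕ → ℕ) (hm : Tendsto m (U : Filter ℕ) atTop)
    (hN : Tendsto (fun k => 2 ^ m k) (U : Filter ℕ) atTop) (s n : ℕ) (x y z : ℕ → ℤ)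
    (hx : Lw U (fun k => 2 ^ m k) (n + 1) x) (hy : Lw U (fun k => 2 ^ m k) (n + 1) y)
    (h : ∀ᶠ k in (U : Filter ℕ), z k = x k + y k ∨ z k = x k - y k ∨ z k = x k * y k ∨ z k = 2 ^ (x k).toNat ∨
      z k = (Nat.digits 2 (x k).natAbs).length ∨ z k = x k / 2 ^ (y k).toNat ∨ z k = Int.gcd (x k) (2 ^ (2 ^ m k) + 1) ∨
      ((|y k| ^ (k + 1) ≤ 2 ^ (2 ^ m k) ∨ |x k| ≤ (2 ^ (2 ^ m k) + 1) ^ s) ∧ z k = x k / y k)) :
    ∃ n', Lw U (fun k => 2 ^ m k) n' z := by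
  rcases Ultrafilter.eventually_or.1 h with h | h
  · exact ⟨n + 1, (hBLV U _ hN (n + 1)).1 _ _ ((hBLV U _ hN (n + 1)).2.2.2.1 _ _ hx hy).1 (h.mono fun k hk => hk.symm)⟩
  rcases Ultrafilter.eventually_or.1 h with h | h
  · exact ⟨n + 1, (hBLV U _ hN (n + 1)).1 _ _ ((hBLV U _ hN (n + 1)).2.2.2.1 _ _ hx hy).2.1 (h.mono fun k hk => hk.symm)⟩
  rcases Ultrafilter.eventually_or.1 h with h | h
  · exact ⟨n + 1, (hBLV U _ hN (n + 1)).1 _ _ ((hBLV U _ hN (n + 1)).2.2.2.1 _ _ hx hy).2.2 (h.mono fun k hk => hk.symm)⟩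
  rcases Ultrafilter.eventually_or.1 h with h | h
  · exact ⟨n + 1 + 1, (hBLV U _ hN (n + 1 + 1)).1 _ _ ((hBLV U _ hN (n + 1)).2.2.2.2.2.2 _ hx) (h.mono fun k hk => hk.symm)⟩
  rcases Ultrafilter.eventually_or.1 h with h | h
  · exact ⟨n, (hBLV U _ hN n).1 _ _ (hBLN U _ hN n x hx) (h.mono fun k hk => hk.symm)⟩
  rcases Ultrafilter.eventually_or.1 h with h | h
  · have hx2 : Lw U (fun k => 2 ^ m k) (n + 1 + 1) x := BCP_mono hBLV U _ hN (Nat.le_succ _) hx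
    rcases Ultrafilter.em U (fun k => 0 ≤ y k) with h0 | h0
    · exact ⟨n + 1 + 1, (hBLV U _ hN (n + 1 + 1)).1 _ _ (hBSH U _ hN (n + 1) x y hx2 hy h0) (h.mono fun k hk => hk.symm)⟩
    · refine ⟨n + 1, (hBLV U _ hN (n + 1)).1 _ _ hx ?_⟩
      filter_upwards [h, h0] with k hk hk0
      have h2 : (y k).toNat = 0 := by
        rw [Int.toNat_eq_zero]
        omega
      rw [hk, h2, pow_zero, Int.ediv_one]
  rcases Ultrafilter.eventually_or.1 h with h | h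
  · exact ⟨n + 1, (hBLV U _ hN (n + 1)).1 _ _ (hBGC U m hm n x hx) (h.mono fun k hk => hk.symm)⟩
  have hz : ∀ᶠ k in (U : Filter ℕ), x k / y k = z k := h.mono fun k hk => hk.2.symm
  have h' : ∀ᶠ k in (U : Filter ℕ), |y k| ^ (k + 1) ≤ 2 ^ (2 ^ m k) ∨ |x k| ≤ (2 ^ (2 ^ m k) + 1) ^ s := h.mono fun k hk => hk.1
  rcases Ultrafilter.eventually_or.1 h' with h1 | h1
  · exact ⟨n + 1, (hBLV U _ hN (n + 1)).1 _ _ ((hBLV U _ hN (n + 1)).2.2.2.2.2.1 y x (BCP_sm U hU m y h1) hx) hz⟩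
  · refine ⟨n + 1, (hBLV U _ hN (n + 1)).1 _ _ (hBQT U _ hN n (2 * s) x y hx hy ?_) hz⟩
    filter_upwards [h1] with k hk
    refine hk.trans ?_
    have h3 : (1 : ℤ) ≤ 2 ^ (2 ^ m k) := one_le_pow₀ (by norm_num)
    have h4 : (2 : ℤ) ^ (2 ^ m k) + 1 ≤ 2 ^ (2 * 2 ^ m k) := by
      have h5 : (2 : ℤ) ≤ 2 ^ (2 ^ m k) := by
        calc (2 : ℤ) = 2 ^ 1 := (pow_one 2).symm
          _ ≤ 2 ^ (2 ^ m k) := pow_le_pow_right₀ (by norm_num) Nat.one_le_two_pow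
      rw [two_mul, pow_add]
      nlinarith
    calc ((2 : ℤ) ^ (2 ^ m k) + 1) ^ s ≤ (2 ^ (2 * 2 ^ m k)) ^ s := pow_le_pow_left₀ (by positivity) h4 s
      _ = 2 ^ (2 * s * 2 ^ m k) := by
          rw [← pow_mul]
          congr 1
          ring

theorem BCP (hGSM : GSM_stmt) (hGNG : GNG_stmt) (hBLV : BLV_stmt) (hBSH : BSH_stmt) (hBLN : BLN_stmt) (hBQT : BQT_stmt) (hBEN : BEN_stmt) (hBGC : BGC_stmt) : BCP_stmt := by
  intro s d hd
  by_contra hcon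
  have hcon' : ∀ k : ℕ, ∃ m : ℕ, k ≤ m ∧ ∃ z ∈ Cx m (k + 1) s s, 2 ^ (2 ^ m) + 1 < (Int.gcd z (2 ^ (2 ^ m) + 1)) ^ d ∧
      2 ^ (2 ^ m) + 1 < ((2 ^ (2 ^ m) + 1) / Int.gcd z (2 ^ (2 ^ m) + 1)) ^ d := by
    intro k
    by_contra h1
    apply hcon
    refine ⟨k + 1, k, Nat.succ_pos k, fun m hm z hz => ?_⟩
    by_contra h2
    rw [not_or] at h2
    exact h1 ⟨m, hm, z, hz, not_le.1 h2.1, not_le.1 h2.2⟩
  choose m hkm z hz hz1 hz2 using hcon'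
  set U : Ultrafilter ℕ := hyperfilter ℕ with hUdef
  have hU : (U : Filter ℕ) ≤ atTop := Nat.hyperfilter_le_atTop
  have hid : Tendsto (fun k : ℕ => k) (U : Filter ℕ) atTop := tendsto_id.mono_left hU
  have hm : Tendsto m (U : Filter ℕ) atTop := tendsto_atTop_mono hkm hid
  have hN : Tendsto (fun k => 2 ^ m k) (U : Filter ℕ) atTop :=
    tendsto_atTop_mono (fun k => (Nat.lt_two_pow_self (n := m k)).le) hm
  have claim : ∀ (t : ℕ) (z : ℕ → ℤ), (∀ᶠ k in (U : Filter ℕ), z k ∈ Cx (m k) (k + 1) s t) →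
      ∃ n, Lw U (fun k => 2 ^ m k) n z := by
    intro t
    induction t with
    | zero =>
      intro z hz
      exact ⟨0, BCP_sm U hU m z hz⟩
    | succ t ih =>
      intro z hz
      have hz' : ∀ᶠ k in (U : Filter ℕ), z k ∈ Cx (m k) (k + 1) s t ∨ Op (m k) (k + 1) s (Cx (m k) (k + 1) s t) (z k) := hz
      rcases Ultrafilter.eventually_or.1 hz' with h | h
      · exact ih z h
      have h1 : ∀ k, ∃ x y : ℤ, Op (m k) (k + 1) s (Cx (m k) (k + 1) s t) (z k) → x ∈ Cx (m k) (k + 1) s t ∧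
          y ∈ Cx (m k) (k + 1) s t ∧ (z k = x + y ∨ z k = x - y ∨ z k = x * y ∨ z k = 2 ^ x.toNat ∨
            z k = (Nat.digits 2 x.natAbs).length ∨ z k = x / 2 ^ y.toNat ∨ z k = Int.gcd x (2 ^ (2 ^ m k) + 1) ∨
            ((|y| ^ (k + 1) ≤ 2 ^ (2 ^ m k) ∨ |x| ≤ (2 ^ (2 ^ m k) + 1) ^ s) ∧ z k = x / y)) := by
        intro k
        by_cases hop : Op (m k) (k + 1) s (Cx (m k) (k + 1) s t) (z k)
        · obtain ⟨x, hx, y, hy, hxy⟩ := hop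
          exact ⟨x, y, fun _ => ⟨hx, hy, hxy⟩⟩
        · exact ⟨0, 0, fun h => absurd h hop⟩
      choose x y hxy using h1
      obtain ⟨n1, hn1⟩ := ih x (h.mono fun k hk => (hxy k hk).1)
      obtain ⟨n2, hn2⟩ := ih y (h.mono fun k hk => (hxy k hk).2.1)
      exact BCP_op hBLV hBSH hBLN hBQT hBGC U hU m hm hN s (max n1 n2) x y z
        (BCP_mono hBLV U _ hN ((le_max_left n1 n2).trans (Nat.le_succ _)) hn1)
        (BCP_mono hBLV U _ hN ((le_max_right n1 n2).trans (Nat.le_succ _)) hn2)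
        (h.mono fun k hk => (hxy k hk).2.2)
  obtain ⟨n, hn⟩ := claim s z (Eventually.of_forall hz)
  obtain ⟨k, hk⟩ := (hBEN U m hm n z hn d hd).exists
  rcases hk with hk | hk
  · exact absurd hk (not_le.2 (hz1 k))
  · exact absurd hk (not_le.2 (hz2 k))

end Pool.Agent.GD
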