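import Pool.Agent.helper97.GD.Spec

/-!
MP_37e5fa, MP_a70bdc, project GD, row GPF: prime divisors of Fermat numbers
-/

set_option autoImplicit false

open Filter FirstOrder FirstOrder.Language

namespace Pool.Agent.GD

open Pool.Agent.UnivT

/-- a prime which divides `2^(2^m) + 1` is larger than `2^m` -/
theorem GPF_lt (m p : ℕ) (hp : p.Prime) (h : p ∣ 2 ^ 2 ^ m + 1) : 2 ^ m < p := by
  have hp2 : p ≠ 2 := by
    rintro rfl
    have h1 : 2 ∣ 2 ^ 2 ^ m := dvd_pow_self 2 (pow_ne_zero m two_ne_zero)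
    have h2 : 2 ∣ 1 := (Nat.dvd_add_right h1).1 h
    exact absurd (Nat.le_of_dvd one_pos h2) (by norm_num)
  obtain ⟨k, hk⟩ := Nat.pow_pow_add_primeFactors_one_lt hp hp2 h
  have hk0 : k ≠ 0 := by
    rintro rfl
    rw [zero_mul, zero_add] at hk
    exact hp.ne_one hk
  have h3 : 2 ^ m ≤ 2 ^ (m + 1) := Nat.pow_le_pow_right two_pos (Nat.le_succ m)
  have h4 : 2 ^ (m + 1) ≤ k * 2 ^ (m + 1) := Nat.le_mul_of_pos_left _ (Nat.pos_of_ne_zero hk0)
  omega

theorem GPF : GPF_stmt := by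
  intro m D S hD hDm h
  have hc : Nat.Coprime (2 ^ 2 ^ m + 1) D := by
    by_contra hn
    obtain ⟨p, hp, h1, h2⟩ := Nat.Prime.not_coprime_iff_dvd.1 hn
    have h3 := GPF_lt m p hp h1
    have h4 := Nat.le_of_dvd hD h2
    omega
  have hc' : IsCoprime ((2 : ℤ) ^ (2 ^ m) + 1) (D : ℤ) := by
    have h5 := Nat.isCoprime_iff_coprime.2 hc
    push_cast at h5
    exact h5
  exact hc'.dvd_of_dvd_mul_left h

end Pool.Agent.GD
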